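import Pool.Agent.EVF.StmtsF

/-!
# Squad EVF, row LOC: the slices of an irreducible polynomial (helper7)
-/

set_option autoImplicit false

namespace Pool.Agent.EVF.H7

open MvPolynomial
open Pool.Agent.RAD (Loc)

/-- an irreducible polynomial in which `t_l` occurs does not divide its derivative -/
theorem not_dvd_pderiv (hS : SlcStmt) (hC : CofStmt) {k : ℕ} {l : Fin k}
    {φ : MvPolynomial (Fin k) ℤ} (h0 : φ ≠ 0) (h1 : 1 ≤ degreeOf l φ) : ¬ φ ∣ pderiv l φ := by
  rintro ⟨q, hq⟩
  obtain ⟨-, -, -, c4, -⟩ := hC k l φ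
  refine c4 h0 ?_
  refine MvPolynomial.funext fun t => ?_
  obtain ⟨-, s2, -, s4⟩ := hS k l t φ
  rw [← s2, map_zero]
  have e : Polynomial.derivative (slice l t φ) = slice l t φ * slice l t q := by
    rw [← s4, hq]
    exact map_mul _ _ _
  by_cases hd : (slice l t φ).natDegree = 0
  · exact Polynomial.coeff_eq_zero_of_natDegree_lt (by omega)
  · exfalso
    have h3 := Polynomial.natDegree_derivative_lt hd
    have hR : slice l t φ ≠ 0 := by
      intro h
      rw [h, Polynomial.natDegree_zero] at hd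
      exact hd rfl
    have hR' : Polynomial.derivative (slice l t φ) ≠ 0 := by
      intro h
      exact hd (Polynomial.derivative_eq_zero.1 h)
    have hQ : slice l t q ≠ 0 := by
      intro h
      rw [e, h, mul_zero] at hR'
      exact hR' rfl
    rw [e, Polynomial.natDegree_mul hR hQ] at h3
    omega

/-- LOC -/
theorem loc (hB : BezStmt) (hS : SlcStmt) (hC : CofStmt) : LocStmt := by
  intro k l φ hφ h1
  obtain ⟨A, B, ρ₀, hρ, hd, hAB⟩ := hB k l φ (pderiv l φ) hφ h1
    (not_dvd_pderiv hS hC hφ.ne_zero h1)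
  obtain ⟨-, c2, -, c4, -⟩ := hC k l φ
  obtain ⟨-, -, -, -, d5⟩ := hC k l ρ₀
  refine ⟨ρ₀ * coefl l (degreeOf l φ) φ, mul_ne_zero hρ (c4 hφ.ne_zero), ?_, ?_⟩
  · have := MvPolynomial.degreeOf_mul_le l ρ₀ (coefl l (degreeOf l φ) φ)
    have h2 := c2 (degreeOf l φ)
    omega
  · intro t K h0 hK
    rw [map_mul] at h0 hK
    have hr0 : eval t ρ₀ ≠ 0 := left_ne_zero_of_mul h0
    have hc0 : eval t (coefl l (degreeOf l φ) φ) ≠ 0 := right_ne_zero_of_mul h0
    obtain ⟨-, s2, s3, s4⟩ := hS k l t φ
    have hdeg : (slice l t φ).natDegree = degreeOf l φ := by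
      refine le_antisymm s3 ?_
      refine Polynomial.le_natDegree_of_ne_zero ?_
      rw [s2]
      exact hc0
    have hsl : slice l t ρ₀ = Polynomial.C (eval t ρ₀) := by
      obtain ⟨r1, -, r3, -⟩ := hS k l t ρ₀
      have h5 : (slice l t ρ₀).natDegree ≤ 0 := by omega
      rw [Polynomial.eq_C_of_natDegree_le_zero h5]
      congr 1
      rw [Polynomial.coeff_zero_eq_eval_zero, r1 0]
      exact d5 hd t 0
    have hid : slice l t A * slice l t φ + slice l t B * Polynomial.derivative (slice l t φ) =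
        Polynomial.C (eval t ρ₀) := by
      rw [← hsl, ← hAB, ← s4]
      unfold slice
      rw [map_add, map_mul, map_mul]
    refine ⟨hdeg, ?_, ?_⟩
    · have hq : ((eval t ρ₀ : ℤ) : ℚ) ≠ 0 := by exact_mod_cast hr0
      refine ⟨Polynomial.C ((eval t ρ₀ : ℤ) : ℚ)⁻¹ * (slice l t A).map (Int.castRingHom ℚ),
        Polynomial.C ((eval t ρ₀ : ℤ) : ℚ)⁻¹ * (slice l t B).map (Int.castRingHom ℚ), ?_⟩
      have h6 := congrArg (Polynomial.map (Int.castRingHom ℚ)) hid
      rw [Polynomial.map_add, Polynomial.map_mul, Polynomial.map_mul, Polynomial.map_C] at h6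
      rw [Polynomial.derivative_map, mul_assoc, mul_assoc, ← mul_add, h6, ← Polynomial.C_mul]
      simp [hq]
    · intro p hp hpK
      have hpi : Prime (p : ℤ) := Nat.prime_iff_prime_int.1 hp
      have hnd : ¬ (p : ℤ) ∣ eval t ρ₀ * eval t (coefl l (degreeOf l φ) φ) := by
        intro h
        exact hpK (by exact_mod_cast h.trans hK)
      constructor
      · intro h
        refine hnd (Dvd.dvd.mul_left ?_ _)
        rw [← s2, ← hdeg]
        exact h
      · intro c h7 h8
        refine hnd (Dvd.dvd.mul_right ?_ _)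
        have h9 := congrArg (Polynomial.eval c) hid
        rw [Polynomial.eval_add, Polynomial.eval_mul, Polynomial.eval_mul,
          Polynomial.eval_C] at h9
        rw [← h9]
        exact dvd_add (Dvd.dvd.mul_left h7 _) (Dvd.dvd.mul_left h8 _)

end Pool.Agent.EVF.H7
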